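import Pool.Agent.W810.SYN.Int

set_option autoImplicit false

namespace Pool.Agent.W810.SYN

open MeasureTheory AddCircle Filter Topology Pool.Agent.Results.MP_535799_an.NonSidon

noncomputable section

lemma sum_ext_Icc (f : L1) (N₁ N₂ : ℕ) (hN : N₁ ≤ N₂) (w : ℤ → ℂ) :
    ∑ m ∈ Finset.Icc (-(N₁ : ℤ) - 1) N₁, Gc N₁ m * coeff f m * w m =
      ∑ m ∈ Finset.Icc (-(N₂ : ℤ) - 1) N₂, Gc N₁ m * coeff f m * w m := by
  apply Finset.sum_subset
  · intro m hm
    rw [Finset.mem_Icc] at *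
    omega
  · intro m _ hm
    rw [Gc_zero hm]; ring

/-- the algebraic part, for given parameters -/
theorem main_alg (hF : S_FEJ) (f : L1) (N₁ N₂ : ℕ) (hN : N₁ ≤ N₂) (α β : ℂ) (hαβ : α + β = 1)
    (hα : ‖α‖ ≤ 2) (hβ : ‖β‖ ≤ 1) (h0 : α * cN f N₂ + β * cN f N₁ = 0) :
    ∃ (η G : ℤ → ℂ), (∀ n : ℤ, (N₂ : ℤ) + 1 < |n| → η n = 0) ∧
    (∀ m : ℤ, ‖G m‖ ≤ 3 * ((if |m| ≤ (N₁ : ℤ) + 1 then 1 / ((N₁ : ℝ) + 1) else 0) +
      (if |m| ≤ (N₂ : ℤ) + 1 then 1 / ((N₂ : ℝ) + 1) else 0))) ∧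
    (∀ n n' : ℤ, n ≤ n' → coeff f n = coeff f n' →
      η n' - η n = ∑ m ∈ Finset.Ico n n', G m * (coeff f m - coeff f n)) ∧
    ‖f - toL (poly (Finset.Icc (-(N₂ : ℤ) - 1) (N₂ + 1)) η)‖ ≤
      2 * ‖f - conv f (toL (fejer N₂))‖ + ‖f - conv f (toL (fejer N₁))‖ +
      ‖toL (α • RN f N₂ + β • RN f N₁)‖ := by
  classical
  set G : ℤ → ℂ := fun m => α * Gc N₂ m + β * Gc N₁ m with hG
  set L : ℤ → ℂ := fun n => α * lam N₂ n + β * lam N₁ n with hL
  set I : Finset ℤ := Finset.Icc (-(N₂ : ℤ) - 1) N₂ with hI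
  set η : ℤ → ℂ := fun n => L n * coeff f n +
    ∑ m ∈ I, G m * coeff f m * (if m < n then 1 else 0) with hη
  have hGL : ∀ m, G m = L m - L (m + 1) := by
    intro m; simp only [hG, hL, Gc]; ring
  have hGz : ∀ m, m ∉ I → G m = 0 := by
    intro m hm
    simp only [hG]
    rw [Gc_zero hm, Gc_zero (N := N₁)]
    · ring
    · intro h; apply hm; rw [hI, Finset.mem_Icc]; rw [Finset.mem_Icc] at h; omega
  have hc : ∀ w : ℤ → ℂ, ∑ m ∈ I, G m * coeff f m * w m =
      α * ∑ m ∈ Finset.Icc (-(N₂ : ℤ) - 1) N₂, Gc N₂ m * coeff f m * w m +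
      β * ∑ m ∈ Finset.Icc (-(N₁ : ℤ) - 1) N₁, Gc N₁ m * coeff f m * w m := by
    intro w
    rw [sum_ext_Icc f N₁ N₂ hN w, Finset.mul_sum, Finset.mul_sum, ← Finset.sum_add_distrib]
    refine Finset.sum_congr rfl fun m _ => ?_
    simp only [hG]; ring
  have htot : ∑ m ∈ I, G m * coeff f m = 0 := by
    have := hc (fun _ => 1)
    simp only [mul_one] at this
    rw [this]; exact h0
  have hηz : ∀ n : ℤ, (N₂ : ℤ) + 1 < |n| → η n = 0 := by
    intro n hn
    have e1 : L n = 0 := by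
      simp only [hL]
      rw [lam_zero (by omega), lam_zero (by omega)]; ring
    simp only [hη, e1, zero_mul, zero_add]
    rcases lt_abs.1 hn with h | h
    · rw [← htot]
      refine Finset.sum_congr rfl fun m hm => ?_
      rw [hI, Finset.mem_Icc] at hm
      rw [if_pos (by omega), mul_one]
    · apply Finset.sum_eq_zero
      intro m hm
      rw [hI, Finset.mem_Icc] at hm
      rw [if_neg (by omega), mul_zero]
  refine ⟨η, G, hηz, ?_, ?_, ?_⟩
  · intro m
    have a1 : ‖Gc N₁ m‖ ≤ (if |m| ≤ (N₁ : ℤ) + 1 then 1 / ((N₁ : ℝ) + 1) else 0) := by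
      split_ifs with h
      · exact Gc_norm _ _
      · rw [Gc_zero, norm_zero]
        intro h2; rw [Finset.mem_Icc] at h2; apply h; rw [abs_le]; omega
    have a2 : ‖Gc N₂ m‖ ≤ (if |m| ≤ (N₂ : ℤ) + 1 then 1 / ((N₂ : ℝ) + 1) else 0) := by
      split_ifs with h
      · exact Gc_norm _ _
      · rw [Gc_zero, norm_zero]
        intro h2; rw [Finset.mem_Icc] at h2; apply h; rw [abs_le]; omega
    simp only [hG]
    refine (norm_add_le _ _).trans ?_
    rw [norm_mul, norm_mul]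
    have := norm_nonneg (Gc N₁ m)
    have := norm_nonneg (Gc N₂ m)
    nlinarith
  · intro n n' hn hf
    have e1 : ∑ m ∈ Finset.Ico n n', G m = L n - L n' := by
      rw [← tele L hn]
      exact Finset.sum_congr rfl fun m _ => hGL m
    have e2 : ∑ m ∈ I, G m * coeff f m * (if m < n' then 1 else 0) -
        ∑ m ∈ I, G m * coeff f m * (if m < n then 1 else 0) =
        ∑ m ∈ Finset.Ico n n', G m * coeff f m := by
      rw [← Finset.sum_sub_distrib]
      have e3 : ∑ m ∈ Finset.Ico n n', G m * coeff f m =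
          ∑ m ∈ I, if m ∈ Finset.Ico n n' then G m * coeff f m else 0 := by
        rw [← Finset.sum_filter, Finset.filter_mem_eq_inter]
        symm
        apply Finset.sum_subset Finset.inter_subset_right
        intro m hm hm2
        have : m ∉ I := fun h => hm2 (Finset.mem_inter.2 ⟨h, hm⟩)
        rw [hGz m this, zero_mul]
      rw [e3]
      refine Finset.sum_congr rfl fun m _ => ?_
      by_cases h1 : m < n
      · have h3 : m ∉ Finset.Ico n n' := by rw [Finset.mem_Ico]; omega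
        rw [if_pos h1, if_pos (by omega), if_neg h3]; ring
      · by_cases h2 : m < n'
        · have h3 : m ∈ Finset.Ico n n' := by rw [Finset.mem_Ico]; omega
          rw [if_neg h1, if_pos h2, if_pos h3]; ring
        · have h3 : m ∉ Finset.Ico n n' := by rw [Finset.mem_Ico]; omega
          rw [if_neg h1, if_neg h2, if_neg h3]; ring
    simp only [mul_sub, Finset.sum_sub_distrib]
    rw [← Finset.sum_mul, e1, ← e2]
    simp only [hη, ← hf]
    ring
  · have key : toL (poly (Finset.Icc (-(N₂ : ℤ) - 1) (N₂ + 1)) η) =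
        (α • conv f (toL (fejer N₂)) + β • conv f (toL (fejer N₁))) -
          toL (α • RN f N₂ + β • RN f N₁) := by
      rw [← sub_eq_zero]
      apply eq_zero_of_coeff
      intro n
      have e5 : toL (α • RN f N₂ + β • RN f N₁) = α • toL (RN f N₂) + β • toL (RN f N₁) := by
        unfold toL; rw [map_add, map_smul, map_smul]
      rw [e5, coeff_sub, coeff_sub, coeff_add, coeff_add, coeff_smul, coeff_smul, coeff_smul,
        coeff_smul, coeff_conv, coeff_conv, hF.1, hF.1, coeff_RN, coeff_RN, coeff_toL_poly]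
      have e6 : (if n ∈ Finset.Icc (-(N₂ : ℤ) - 1) (N₂ + 1) then η n else 0) = η n := by
        split_ifs with h
        · rfl
        · rw [hηz]
          rw [Finset.mem_Icc] at h
          rw [lt_abs]; omega
      rw [e6]
      simp only [hη]
      rw [hc]
      split_ifs with h
      · simp only [hL]
        linear_combination h0
      · simp only [hL]
        ring
    have e7 : f - toL (poly (Finset.Icc (-(N₂ : ℤ) - 1) (N₂ + 1)) η) =
        α • (f - conv f (toL (fejer N₂))) + β • (f - conv f (toL (fejer N₁))) +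
          toL (α • RN f N₂ + β • RN f N₁) := by
      rw [key]
      have : f = α • f + β • f := by rw [← add_smul, hαβ, one_smul]
      rw [smul_sub, smul_sub]
      nth_rewrite 1 [this]
      abel
    rw [e7]
    refine (norm_add_le _ _).trans (add_le_add_left ?_ _)
    refine (norm_add_le _ _).trans ?_
    rw [norm_smul, norm_smul]
    have := norm_nonneg (f - conv f (toL (fejer N₂)))
    have := norm_nonneg (f - conv f (toL (fejer N₁)))
    nlinarith

/-- **APX** -/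
theorem main_apx (hRL : S_RL) (hF : S_FEJ) (hH : S_HAR) (hM : S_MEAS) (hU : S_UN) (hLC : S_LC) :
    S_APX := by
  classical
  intro f ε N₀ hε
  have hB := (hRL f).2
  have hfj := hF.2 f
  have hu := hU f
  have hs := hH f
  -- the small parameter
  set e : ℝ := ε / 20 with he
  have hepos : 0 < e := by positivity
  have hBn : ∀ N, 0 ≤ BN f N / ((N : ℝ) + 1) := fun N =>
    div_nonneg (Finset.sum_nonneg fun _ _ => norm_nonneg _) (by positivity)
  obtain ⟨A1, hA1⟩ := eventually_atTop.1 ((tendsto_order.1 hB).2 e hepos)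
  obtain ⟨A2, hA2⟩ := eventually_atTop.1 ((tendsto_order.1 hfj).2 e hepos)
  obtain ⟨A3, hA3⟩ := eventually_atTop.1 ((tendsto_order.1 hu).2 e hepos)
  have htail : ∃ A4 : ℕ, ∀ N₁ N₂ : ℕ, A4 ≤ N₁ → N₁ ≤ N₂ →
      ∑ N ∈ Finset.Ico N₁ N₂, ‖cN f N‖ / ((N : ℝ) + 1) < e := by
    have hcau := hs.hasSum.tendsto_sum_nat.cauchySeq
    obtain ⟨A4, hA4⟩ := Metric.cauchySeq_iff.1 hcau e hepos
    refine ⟨A4, fun N₁ N₂ h1 h2 => ?_⟩
    have h3 := hA4 N₂ (h1.trans h2) N₁ h1
    rw [Real.dist_eq, ← Finset.sum_Ico_eq_sub _ h2] at h3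
    exact (le_abs_self _).trans_lt h3
  obtain ⟨A4, hA4⟩ := htail
  set N₁ : ℕ := max N₀ (max A1 (max A2 (max A3 A4))) with hN₁
  have l0 : N₀ ≤ N₁ := by omega
  have l1 : A1 ≤ N₁ := by omega
  have l2 : A2 ≤ N₁ := by omega
  have l3 : A3 ≤ N₁ := by omega
  have l4 : A4 ≤ N₁ := by omega
  -- choice of the second parameter
  have hch : ∃ (N₂ : ℕ) (α β : ℂ), N₁ ≤ N₂ ∧ α + β = 1 ∧ ‖α‖ ≤ 2 ∧ ‖β‖ ≤ 1 ∧
      α * cN f N₂ + β * cN f N₁ = 0 ∧
      ‖cN f N₂‖ * ∑ N ∈ Finset.Ico N₁ N₂, 1 / ((N : ℝ) + 1) ≤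
        ∑ N ∈ Finset.Ico N₁ N₂, ‖cN f N‖ / ((N : ℝ) + 1) := by
    by_cases hz : cN f N₁ = 0
    · refine ⟨N₁, 1, 0, le_rfl, by ring, by norm_num, by norm_num, by rw [hz]; ring, by simp⟩
    · have hzp : 0 < ‖cN f N₁‖ := norm_pos_iff.2 hz
      have hex : ∃ N : ℕ, N₁ ≤ N ∧ ‖cN f N‖ ≤ ‖cN f N₁‖ / 2 := by
        obtain ⟨A5, hA5⟩ := eventually_atTop.1 ((tendsto_order.1 hB).2 (‖cN f N₁‖ / 2) (by positivity))
        exact ⟨max N₁ A5, le_max_left _ _, (cN_le f _).trans (hA5 _ (le_max_right _ _)).le⟩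
      set N₂ := Nat.find hex with hN₂
      obtain ⟨h1, h2⟩ := Nat.find_spec hex
      rw [← hN₂] at h1 h2
      have hne : cN f N₁ - cN f N₂ ≠ 0 := by
        intro h
        rw [sub_eq_zero] at h
        rw [← h] at h2
        linarith
      have hlow : ‖cN f N₁‖ / 2 ≤ ‖cN f N₁ - cN f N₂‖ := by
        have := norm_sub_norm_le (cN f N₁) (cN f N₂)
        linarith
      refine ⟨N₂, cN f N₁ / (cN f N₁ - cN f N₂), -cN f N₂ / (cN f N₁ - cN f N₂), h1, ?_, ?_, ?_, ?_, ?_⟩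
      · field_simp
        ring
      · rw [norm_div, div_le_iff₀ (norm_pos_iff.2 hne)]
        linarith
      · rw [norm_div, norm_neg, div_le_iff₀ (norm_pos_iff.2 hne)]
        linarith
      · field_simp
        ring
      · rw [Finset.mul_sum]
        refine Finset.sum_le_sum fun N hN => ?_
        rw [Finset.mem_Ico] at hN
        have h3 := Nat.find_min hex (m := N) hN.2
        have h4 : ‖cN f N₁‖ / 2 < ‖cN f N‖ := by
          by_contra hcon
          exact h3 ⟨hN.1, not_lt.1 hcon⟩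
        rw [mul_one_div]
        gcongr
        linarith
  obtain ⟨N₂, α, β, hN, hαβ, hα, hβ, h0, hsum⟩ := hch
  obtain ⟨η, G, g1, g2, g3, g4⟩ := main_alg hF f N₁ N₂ hN α β hαβ hα hβ h0
  refine ⟨N₁, N₂, η, G, l0, hN, g1, g2, g3, g4.trans_lt ?_⟩
  have k := main_int hM hLC f N₁ N₂ hN α β hα hβ h0
  have b1 := hA1 N₁ l1
  have b2 := hA1 N₂ (l1.trans hN)
  have b3 := hA2 N₁ l2
  have b4 := hA2 N₂ (l2.trans hN)
  have b5 := hA3 N₁ l3
  have b6 := hA3 N₂ (l3.trans hN)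
  have b7 := hA4 N₁ N₂ l4 hN
  have b8 := cN_le f N₂
  have b9 : 2 * ‖cN f N₂‖ * (1 + ∑ N ∈ Finset.Ico N₁ N₂, 1 / ((N : ℝ) + 1)) ≤ 4 * e := by
    have : 2 * ‖cN f N₂‖ * (1 + ∑ N ∈ Finset.Ico N₁ N₂, 1 / ((N : ℝ) + 1)) =
      2 * ‖cN f N₂‖ + 2 * (‖cN f N₂‖ * ∑ N ∈ Finset.Ico N₁ N₂, 1 / ((N : ℝ) + 1)) := by ring
    rw [this]
    linarith
  have : ε = 20 * e := by rw [he]; ring
  linarith

end

end Pool.Agent.W810.SYN
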