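import Pool.Agent.W810.SYN.Stm

set_option autoImplicit false

namespace Pool.Agent.W810.SYN

open MeasureTheory AddCircle Filter Topology Pool.Agent.Results.MP_535799_an.NonSidon

noncomputable section

lemma lam_zero {N : ℕ} {n : ℤ} (h : (N : ℤ) + 1 ≤ |n|) : lam N n = 0 := by
  unfold lam
  rw [max_eq_left (by omega)]
  simp

lemma norm_np1 (N : ℕ) : ‖((N : ℂ) + 1)‖ = (N : ℝ) + 1 := by
  have : ((N : ℂ) + 1) = ((N + 1 : ℝ) : ℂ) := by push_cast; ring
  rw [this, Complex.norm_real, Real.norm_of_nonneg (by positivity)]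

lemma Gc_norm (N : ℕ) (n : ℤ) : ‖Gc N n‖ ≤ 1 / ((N : ℝ) + 1) := by
  unfold Gc lam
  rw [← sub_div, norm_div, norm_np1, ← Int.cast_sub, Complex.norm_intCast]
  gcongr
  have : |max 0 ((N : ℤ) + 1 - |n|) - max 0 ((N : ℤ) + 1 - |n + 1|)| ≤ 1 := by
    have h1 : |n + 1| ≤ |n| + 1 := by
      simpa using abs_add_le n 1
    have h2 : |n| ≤ |n + 1| + 1 := by
      have := abs_add_le (n + 1) (-1)
      simpa using this
    rw [abs_le]
    constructor <;> omega
  exact_mod_cast this

lemma Gc_zero {N : ℕ} {n : ℤ} (h : n ∉ Finset.Icc (-(N : ℤ) - 1) N) : Gc N n = 0 := by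
  rw [Finset.mem_Icc] at h
  unfold Gc
  rw [lam_zero, lam_zero, sub_zero]
  · rcases le_or_gt (-(N : ℤ) - 1) n with h1 | h1
    · rw [le_abs]; left; omega
    · rw [le_abs]; right; omega
  · rcases le_or_gt (-(N : ℤ) - 1) n with h1 | h1
    · rw [le_abs]; left; omega
    · rw [le_abs]; right; omega

/-- the polynomial `(z^{m+1} - 1)/(1 - z)` -/
def em (m : ℤ) : C(Circ, ℂ) :=
  poly (Finset.Icc (m + 1) (-1)) (fun _ => 1) - poly (Finset.Icc 0 m) (fun _ => 1)

lemma poly_apply (S : Finset ℤ) (b : ℤ → ℂ) (x : Circ) :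
    poly S b x = ∑ n ∈ S, b n * (fourier n x : ℂ) := by
  unfold poly
  simp

lemma norm_fourier_apply (n : ℤ) (x : Circ) : ‖(fourier n x : ℂ)‖ = 1 := by
  rw [fourier_apply]; exact Circle.norm_coe _

lemma em_norm (m : ℤ) (x : Circ) : ‖em m x‖ ≤ |((m : ℝ) + 1)| := by
  unfold em
  rw [ContinuousMap.sub_apply, poly_apply, poly_apply]
  have hb : ∀ S : Finset ℤ, ‖∑ n ∈ S, (1 : ℂ) * (fourier n x : ℂ)‖ ≤ S.card := by
    intro S
    refine (norm_sum_le _ _).trans ?_
    simp [norm_fourier_apply]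
  rcases le_or_gt 0 m with h | h
  · have he : Finset.Icc (m + 1) (-1) = ∅ := Finset.Icc_eq_empty (by omega)
    rw [he, Finset.sum_empty, zero_sub, norm_neg]
    refine (hb _).trans ?_
    rw [Int.card_Icc, abs_of_nonneg (by have : (0 : ℝ) ≤ m := by exact_mod_cast h
                                        linarith)]
    have : (((m + 1 - 0).toNat : ℤ)) = m + 1 := by omega
    have h2 : (((m + 1 - 0).toNat : ℕ) : ℝ) = (m : ℝ) + 1 := by exact_mod_cast this
    rw [h2]
  · have he : Finset.Icc (0 : ℤ) m = ∅ := Finset.Icc_eq_empty (by omega)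
    rw [he, Finset.sum_empty, sub_zero]
    refine (hb _).trans ?_
    rw [Int.card_Icc, abs_of_nonpos (by have : (m : ℝ) + 1 ≤ 0 := by exact_mod_cast h
                                        exact this)]
    have : (((-1 + 1 - (m + 1)).toNat : ℤ)) = -(m + 1) := by omega
    have h2 : (((-1 + 1 - (m + 1)).toNat : ℕ) : ℝ) = -((m : ℝ) + 1) := by exact_mod_cast this
    rw [h2]

lemma coeff_em (m n : ℤ) : coeff (toL (em m)) n = (if m < n then 1 else 0) - (if 0 ≤ n then 1 else 0) := by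
  have h : toL (em m) = toL (poly (Finset.Icc (m + 1) (-1)) (fun _ => 1))
      - toL (poly (Finset.Icc 0 m) (fun _ => 1)) := by
    unfold em toL; rw [map_sub]
  rw [h, coeff_sub, coeff_toL_poly, coeff_toL_poly]
  simp only [Finset.mem_Icc]
  by_cases h1 : m < n <;> by_cases h2 : 0 ≤ n
  · rw [if_neg (by omega), if_neg (by omega), if_pos h1, if_pos h2]; ring
  · rw [if_pos (by omega), if_neg (by omega), if_pos h1, if_neg h2]
  · rw [if_neg (by omega), if_pos (by omega), if_neg h1, if_pos h2]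
  · rw [if_neg (by omega), if_neg (by omega), if_neg h1, if_neg h2]

lemma fourier_succ (n : ℤ) (x : Circ) :
    (fourier (n + 1) x : ℂ) = fourier 1 x * fourier n x := by
  rw [add_comm, fourier_add]

/-- telescoping -/
lemma tele_aux (F : ℤ → ℂ) (a : ℤ) (k : ℕ) :
    ∑ n ∈ Finset.Ico a (a + k), (F n - F (n + 1)) = F a - F (a + k) := by
  induction k with
  | zero => simp
  | succ k ih =>
    have : Finset.Ico a (a + ((k + 1 : ℕ) : ℤ)) = insert (a + k) (Finset.Ico a (a + k)) := by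
      ext t; simp only [Finset.mem_Ico, Finset.mem_insert]; push_cast; omega
    rw [this, Finset.sum_insert (by simp), ih]
    push_cast
    ring_nf

lemma tele (F : ℤ → ℂ) {a b : ℤ} (h : a ≤ b) :
    ∑ n ∈ Finset.Ico a b, (F n - F (n + 1)) = F a - F b := by
  obtain ⟨k, rfl⟩ : ∃ k : ℕ, b = a + k := ⟨(b - a).toNat, by omega⟩
  exact tele_aux F a k

lemma em_mul (m : ℤ) (x : Circ) :
    (1 - (fourier 1 x : ℂ)) * em m x = fourier (m + 1) x - 1 := by
  unfold em
  rw [ContinuousMap.sub_apply, poly_apply, poly_apply]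
  simp only [one_mul]
  rw [mul_sub, Finset.mul_sum, Finset.mul_sum]
  have hs : ∀ n : ℤ, (1 - (fourier 1 x : ℂ)) * fourier n x = fourier n x - fourier (n + 1) x := by
    intro n; rw [fourier_succ]; ring
  simp only [hs]
  have h0 : (fourier (0 : ℤ) x : ℂ) = 1 := by simp
  rcases le_or_gt 0 m with h | h
  · have he : Finset.Icc (m + 1) (-1) = ∅ := Finset.Icc_eq_empty (by omega)
    have he2 : Finset.Icc (0 : ℤ) m = Finset.Ico 0 (m + 1) := by
      ext t; simp only [Finset.mem_Icc, Finset.mem_Ico]; omega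
    rw [he, he2, Finset.sum_empty, tele (fun n => (fourier n x : ℂ)) (by omega), h0]
    ring
  · have he : Finset.Icc (0 : ℤ) m = ∅ := Finset.Icc_eq_empty (by omega)
    have he2 : Finset.Icc (m + 1) (-1) = Finset.Ico (m + 1) 0 := by
      ext t; simp only [Finset.mem_Icc, Finset.mem_Ico]; omega
    rw [he, he2, Finset.sum_empty, tele (fun n => (fourier n x : ℂ)) (by omega), h0]
    ring

/-- `R_N` -/
def RN (f : L1) (N : ℕ) : C(Circ, ℂ) :=
  -∑ m ∈ Finset.Icc (-(N : ℤ) - 1) N, (Gc N m * coeff f m) • em m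

lemma RN_norm (f : L1) (N : ℕ) (x : Circ) : ‖RN f N x‖ ≤ BN f N := by
  unfold RN BN
  rw [ContinuousMap.neg_apply, norm_neg, ContinuousMap.sum_apply]
  refine (norm_sum_le _ _).trans (Finset.sum_le_sum fun m hm => ?_)
  rw [Finset.mem_Icc] at hm
  rw [ContinuousMap.smul_apply, norm_smul, norm_mul]
  have h1 := Gc_norm N m
  have h2 := em_norm m x
  have h3 : |((m : ℝ) + 1)| ≤ (N : ℝ) + 1 := by
    rw [abs_le]
    constructor
    · have : -((N : ℤ) + 1) ≤ m + 1 := by omega
      exact_mod_cast this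
    · have : m + 1 ≤ (N : ℤ) + 1 := by omega
      exact_mod_cast this
  have hN : (0 : ℝ) < (N : ℝ) + 1 := by positivity
  calc ‖Gc N m‖ * ‖coeff f m‖ * ‖em m x‖
      ≤ 1 / ((N : ℝ) + 1) * ‖coeff f m‖ * ((N : ℝ) + 1) := by
        apply mul_le_mul (mul_le_mul_of_nonneg_right h1 (norm_nonneg _)) (h2.trans h3)
          (norm_nonneg _) (by positivity)
    _ = ‖coeff f m‖ := by field_simp

lemma RN_mul (f : L1) (N : ℕ) (x : Circ) :
    (1 - (fourier 1 x : ℂ)) * RN f N x = cN f N - fourier 1 x * uN f N x := by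
  unfold RN cN uN
  rw [ContinuousMap.neg_apply, ContinuousMap.sum_apply, poly_apply, mul_neg, Finset.mul_sum,
    Finset.mul_sum, ← Finset.sum_neg_distrib, ← Finset.sum_sub_distrib]
  refine Finset.sum_congr rfl fun m _ => ?_
  rw [ContinuousMap.smul_apply, smul_eq_mul]
  have := em_mul m x
  rw [fourier_succ] at this
  linear_combination (-(Gc N m * coeff f m)) * this

lemma coeff_neg' (f : L1) (n : ℤ) : coeff (-f) n = -coeff f n := by
  have := coeff_smul (-1) f n
  simpa using this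

lemma coeff_RN (f : L1) (N : ℕ) (n : ℤ) : coeff (toL (RN f N)) n =
    -(∑ m ∈ Finset.Icc (-(N : ℤ) - 1) N, Gc N m * coeff f m * (if m < n then 1 else 0))
      + (if 0 ≤ n then cN f N else 0) := by
  have h : toL (RN f N) = -∑ m ∈ Finset.Icc (-(N : ℤ) - 1) N, (Gc N m * coeff f m) • toL (em m) := by
    unfold RN toL; rw [map_neg, map_sum]; simp only [map_smul]
  rw [h, coeff_neg', coeff_sum]
  simp only [coeff_smul, coeff_em, mul_sub, Finset.sum_sub_distrib]
  unfold cN
  split_ifs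
  · simp; ring
  · simp

lemma cN_le (f : L1) (N : ℕ) : ‖cN f N‖ ≤ BN f N / ((N : ℝ) + 1) := by
  unfold cN BN
  rw [Finset.sum_div]
  refine (norm_sum_le _ _).trans (Finset.sum_le_sum fun m _ => ?_)
  rw [norm_mul]
  calc _ ≤ 1 / ((N : ℝ) + 1) * ‖coeff f m‖ := mul_le_mul_of_nonneg_right (Gc_norm N m) (norm_nonneg _)
    _ = _ := by ring

lemma sd_cont : Continuous sd := by
  unfold sd
  exact (continuous_const.sub (map_continuous (fourier (T := 2 * Real.pi) 1))).norm

lemma sd_nonneg (x : Circ) : 0 ≤ sd x := norm_nonneg _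

end

end Pool.Agent.W810.SYN
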