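import Pool.Agent.W810.SYN.Base

set_option autoImplicit false

namespace Pool.Agent.W810.SYN

open MeasureTheory AddCircle Filter Topology Pool.Agent.Results.MP_535799_an.NonSidon

noncomputable section

lemma meas_ge (δ : ℝ) : MeasurableSet {x : Circ | δ ≤ sd x} :=
  (isClosed_le continuous_const sd_cont).measurableSet

lemma meas_lt (δ : ℝ) : MeasurableSet {x : Circ | sd x < δ} :=
  (isOpen_lt sd_cont continuous_const).measurableSet

lemma intOn (P : C(Circ, ℂ)) (δ : ℝ) (hδ : 0 < δ) :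
    IntegrableOn (fun x => ‖P x‖ / sd x) {x | δ ≤ sd x} mu := by
  apply Measure.integrableOn_of_bounded (M := ‖P‖ / δ) (measure_ne_top _ _)
  · exact ((P.continuous.norm.measurable).div sd_cont.measurable).aestronglyMeasurable
  · refine (ae_restrict_mem (meas_ge δ)).mono fun x hx => ?_
    rw [norm_div, norm_norm, Real.norm_of_nonneg (sd_nonneg x)]
    exact div_le_div₀ (norm_nonneg _) (P.norm_coe_le_norm x) hδ hx

lemma RN_le_div (f : L1) (N : ℕ) (x : Circ) (hx : 0 < sd x) :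
    ‖RN f N x‖ ≤ ‖cN f N‖ * (1 / sd x) + ‖uN f N x‖ / sd x := by
  have h := RN_mul f N x
  have h2 : sd x * ‖RN f N x‖ ≤ ‖cN f N‖ + ‖uN f N x‖ := by
    unfold sd
    rw [← norm_mul, h]
    refine (norm_sub_le _ _).trans ?_
    rw [norm_mul, norm_fourier_apply, one_mul]
  rw [mul_one_div, ← add_div, le_div_iff₀ hx, mul_comm]
  exact h2

lemma comb_le_div (f : L1) (N₁ N₂ : ℕ) (α β : ℂ) (hα : ‖α‖ ≤ 2) (hβ : ‖β‖ ≤ 1)
    (h0 : α * cN f N₂ + β * cN f N₁ = 0) (x : Circ) (hx : 0 < sd x) :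
    ‖(α • RN f N₂ + β • RN f N₁) x‖ ≤ 2 * (‖uN f N₂ x‖ / sd x) + ‖uN f N₁ x‖ / sd x := by
  have h2 := RN_mul f N₂ x
  have h1 := RN_mul f N₁ x
  have e : (1 - (fourier 1 x : ℂ)) * ((α • RN f N₂ + β • RN f N₁) x) =
      -(fourier 1 x : ℂ) * (α * uN f N₂ x + β * uN f N₁ x) := by
    rw [ContinuousMap.add_apply, ContinuousMap.smul_apply, ContinuousMap.smul_apply,
      smul_eq_mul, smul_eq_mul]
    linear_combination α * h2 + β * h1 + h0
  have h3 : sd x * ‖(α • RN f N₂ + β • RN f N₁) x‖ ≤ 2 * ‖uN f N₂ x‖ + ‖uN f N₁ x‖ := by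
    unfold sd
    rw [← norm_mul, e, norm_mul, norm_neg, norm_fourier_apply, one_mul]
    refine (norm_add_le _ _).trans ?_
    rw [norm_mul, norm_mul]
    have := norm_nonneg (uN f N₂ x)
    have := norm_nonneg (uN f N₁ x)
    nlinarith
  rw [mul_div_assoc', ← add_div, le_div_iff₀ hx, mul_comm]
  exact h3

theorem main_int (hM : S_MEAS) (hLC : S_LC) (f : L1) (N₁ N₂ : ℕ) (hN : N₁ ≤ N₂) (α β : ℂ)
    (hα : ‖α‖ ≤ 2) (hβ : ‖β‖ ≤ 1) (h0 : α * cN f N₂ + β * cN f N₁ = 0) :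
    ‖toL (α • RN f N₂ + β • RN f N₁)‖ ≤
      2 * (BN f N₂ / ((N₂ : ℝ) + 1)) + BN f N₁ / ((N₁ : ℝ) + 1)
      + 2 * ‖cN f N₂‖ * (1 + ∑ N ∈ Finset.Ico N₁ N₂, 1 / ((N : ℝ) + 1))
      + 2 * ∫ x in {x | 1 / ((N₂ : ℝ) + 1) ≤ sd x}, ‖uN f N₂ x‖ / sd x ∂mu
      + ∫ x in {x | 1 / ((N₁ : ℝ) + 1) ≤ sd x}, ‖uN f N₁ x‖ / sd x ∂mu := by
  classical
  set δ₁ : ℝ := 1 / ((N₁ : ℝ) + 1) with hδ₁
  set δ₂ : ℝ := 1 / ((N₂ : ℝ) + 1) with hδ₂
  have p1 : 0 < δ₁ := by positivity
  have p2 : 0 < δ₂ := by positivity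
  have hB1 : 0 ≤ BN f N₁ := Finset.sum_nonneg fun _ _ => norm_nonneg _
  have hB2 : 0 ≤ BN f N₂ := Finset.sum_nonneg fun _ _ => norm_nonneg _
  set s2 : Set Circ := {x | sd x < δ₂}
  set s1 : Set Circ := {x | sd x < δ₁}
  set sB : Set Circ := {x | δ₂ ≤ sd x ∧ sd x < δ₁} with hsB
  set g2 : Set Circ := {x | δ₂ ≤ sd x}
  set g1 : Set Circ := {x | δ₁ ≤ sd x}
  have ms2 : MeasurableSet s2 := meas_lt _
  have ms1 : MeasurableSet s1 := meas_lt _
  have mg2 : MeasurableSet g2 := meas_ge _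
  have mg1 : MeasurableSet g1 := meas_ge _
  have msB : MeasurableSet sB := mg2.inter ms1
  have i1 : Integrable (s2.indicator fun _ => 2 * BN f N₂) mu :=
    (integrable_const _).indicator ms2
  have i2 : Integrable (s1.indicator fun _ => BN f N₁) mu :=
    (integrable_const _).indicator ms1
  have i3' : IntegrableOn (fun x => 1 / sd x) sB mu := by
    have := (intOn 1 δ₂ p2).mono_set (s := sB) (fun x hx => hx.1)
    simpa using this
  have i3 : Integrable (sB.indicator fun x => 2 * ‖cN f N₂‖ * (1 / sd x)) mu :=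
    (integrable_indicator_iff msB).2 (i3'.const_mul _)
  have i4 : Integrable (g2.indicator fun x => 2 * (‖uN f N₂ x‖ / sd x)) mu :=
    (integrable_indicator_iff mg2).2 ((intOn _ δ₂ p2).const_mul _)
  have i5 : Integrable (g1.indicator fun x => ‖uN f N₁ x‖ / sd x) mu :=
    (integrable_indicator_iff mg1).2 (intOn _ δ₁ p1)
  rw [norm_toL]
  have hb : ∀ x, ‖(α • RN f N₂ + β • RN f N₁) x‖ ≤
      ((((s2.indicator fun _ => 2 * BN f N₂) + (s1.indicator fun _ => BN f N₁))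
        + (sB.indicator fun x => 2 * ‖cN f N₂‖ * (1 / sd x)))
        + (g2.indicator fun x => 2 * (‖uN f N₂ x‖ / sd x)))  x
        + (g1.indicator fun x => ‖uN f N₁ x‖ / sd x) x := by
    intro x
    have hsdn := sd_nonneg x
    have k1 : ∀ (s : Set Circ) (g : Circ → ℝ), (∀ x, 0 ≤ g x) → 0 ≤ s.indicator g x :=
      fun s g h => Set.indicator_nonneg (fun x _ => h x) x
    have n1 := k1 s2 (fun _ => 2 * BN f N₂) (fun _ => by positivity)
    have n2 := k1 s1 (fun _ => BN f N₁) (fun _ => hB1)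
    have n3 := k1 sB (fun x => 2 * ‖cN f N₂‖ * (1 / sd x))
      (fun x => by have := sd_nonneg x; positivity)
    have n4 := k1 g2 (fun x => 2 * (‖uN f N₂ x‖ / sd x))
      (fun x => by have := sd_nonneg x; positivity)
    have n5 := k1 g1 (fun x => ‖uN f N₁ x‖ / sd x)
      (fun x => by have := sd_nonneg x; positivity)
    have t : ‖(α • RN f N₂ + β • RN f N₁) x‖ ≤ 2 * ‖RN f N₂ x‖ + ‖RN f N₁ x‖ := by
      rw [ContinuousMap.add_apply, ContinuousMap.smul_apply, ContinuousMap.smul_apply,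
        smul_eq_mul, smul_eq_mul]
      refine (norm_add_le _ _).trans ?_
      rw [norm_mul, norm_mul]
      have := norm_nonneg (RN f N₂ x)
      have := norm_nonneg (RN f N₁ x)
      nlinarith
    simp only [Pi.add_apply]
    by_cases c1 : sd x < δ₁
    · have e1 : s1.indicator (fun _ => BN f N₁) x = BN f N₁ := Set.indicator_of_mem (s := s1) (a := x) c1 _
      have hR1 := RN_norm f N₁ x
      by_cases c2 : sd x < δ₂
      · have e2 : s2.indicator (fun _ => 2 * BN f N₂) x = 2 * BN f N₂ :=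
          Set.indicator_of_mem (s := s2) (a := x) c2 _
        have hR2 := RN_norm f N₂ x
        linarith
      · have c2' : δ₂ ≤ sd x := not_lt.1 c2
        have e3 : sB.indicator (fun x => 2 * ‖cN f N₂‖ * (1 / sd x)) x =
            2 * ‖cN f N₂‖ * (1 / sd x) := Set.indicator_of_mem (s := sB) ⟨c2', c1⟩ _
        have e4 : g2.indicator (fun x => 2 * (‖uN f N₂ x‖ / sd x)) x =
            2 * (‖uN f N₂ x‖ / sd x) := Set.indicator_of_mem (s := g2) c2' _
        have hR2 := RN_le_div f N₂ x (p2.trans_le c2')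
        linarith
    · have c1' : δ₁ ≤ sd x := not_lt.1 c1
      have hd : δ₂ ≤ δ₁ := by
        rw [hδ₁, hδ₂]
        apply one_div_le_one_div_of_le (by positivity)
        have : (N₁ : ℝ) ≤ N₂ := by exact_mod_cast hN
        linarith
      have e4 : g2.indicator (fun x => 2 * (‖uN f N₂ x‖ / sd x)) x =
          2 * (‖uN f N₂ x‖ / sd x) := Set.indicator_of_mem (s := g2) (hd.trans c1') _
      have e5 : g1.indicator (fun x => ‖uN f N₁ x‖ / sd x) x =
          ‖uN f N₁ x‖ / sd x := Set.indicator_of_mem (s := g1) c1' _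
      have := comb_le_div f N₁ N₂ α β hα hβ h0 x (p1.trans_le c1')
      linarith
  have hI := integral_mono (μ := mu) (integrable_of_cont _ (map_continuous _).norm)
    (((((i1.add i2).add i3).add i4)).add i5) hb
  refine hI.trans ?_
  have q1 : ∫ x, (s2.indicator fun _ => 2 * BN f N₂) x ∂mu ≤ 2 * (BN f N₂ * δ₂) := by
    rw [integral_indicator ms2, setIntegral_const, smul_eq_mul]
    have := hM δ₂ p2.le
    nlinarith
  have q2 : ∫ x, (s1.indicator fun _ => BN f N₁) x ∂mu ≤ BN f N₁ * δ₁ := by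
    rw [integral_indicator ms1, setIntegral_const, smul_eq_mul]
    have := hM δ₁ p1.le
    nlinarith
  have q3 : ∫ x, (sB.indicator fun x => 2 * ‖cN f N₂‖ * (1 / sd x)) x ∂mu ≤
      2 * ‖cN f N₂‖ * (1 + ∑ N ∈ Finset.Ico N₁ N₂, 1 / ((N : ℝ) + 1)) := by
    rw [integral_indicator msB, integral_const_mul]
    exact mul_le_mul_of_nonneg_left (hLC N₁ N₂ hN) (by positivity)
  have q4 : ∫ x, (g2.indicator fun x => 2 * (‖uN f N₂ x‖ / sd x)) x ∂mu =
      2 * ∫ x in g2, ‖uN f N₂ x‖ / sd x ∂mu := by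
    rw [integral_indicator mg2, integral_const_mul]
  have q5 : ∫ x, (g1.indicator fun x => ‖uN f N₁ x‖ / sd x) x ∂mu =
      ∫ x in g1, ‖uN f N₁ x‖ / sd x ∂mu := integral_indicator mg1
  have e0 : ∫ x, (((((s2.indicator fun _ => 2 * BN f N₂) + (s1.indicator fun _ => BN f N₁))
        + (sB.indicator fun x => 2 * ‖cN f N₂‖ * (1 / sd x)))
        + (g2.indicator fun x => 2 * (‖uN f N₂ x‖ / sd x)))  x
        + (g1.indicator fun x => ‖uN f N₁ x‖ / sd x) x) ∂mu
      = ∫ x, (s2.indicator fun _ => 2 * BN f N₂) x ∂mu + ∫ x, (s1.indicator fun _ => BN f N₁) x ∂mu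
        + ∫ x, (sB.indicator fun x => 2 * ‖cN f N₂‖ * (1 / sd x)) x ∂mu
        + ∫ x, (g2.indicator fun x => 2 * (‖uN f N₂ x‖ / sd x)) x ∂mu
        + ∫ x, (g1.indicator fun x => ‖uN f N₁ x‖ / sd x) x ∂mu := by
    rw [integral_add ((((i1.add i2).add i3).add i4)) i5, integral_add' ((i1.add i2).add i3) i4,
      integral_add' (i1.add i2) i3, integral_add' i1 i2]
  have e00 : ∀ B δ : ℝ, ∀ N : ℕ, δ = 1 / ((N : ℝ) + 1) → B * δ = B / ((N : ℝ) + 1) := by
    intro B δ N h; rw [h, mul_one_div]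
  rw [e00 _ _ _ hδ₂] at q1
  rw [e00 _ _ _ hδ₁] at q2
  simp only [Pi.add_apply] at e0 ⊢
  rw [e0]
  linarith

end

end Pool.Agent.W810.SYN
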