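import Pool.Agent.Results.MP_535799_an.NonSidon

/-!
# Equivalence relations on `ℤ` with the synthesis property: interval classes

Definitions and exact statements of the parts (library: `Pool.Agent.Results.MP_535799_an.NonSidon`).
-/

set_option autoImplicit false

namespace Pool.Agent.W810.SYN

open MeasureTheory AddCircle Filter Topology Pool.Agent.Results.MP_535799_an.NonSidon

noncomputable section

/-- `|1 - e^{ix}|` -/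
def sd (x : Circ) : ℝ := ‖(1 : ℂ) - (fourier 1 x : ℂ)‖

/-- Fejér multiplier `(1 - |n|/(N+1))_+` -/
def lam (N : ℕ) (n : ℤ) : ℂ := ((max 0 ((N : ℤ) + 1 - |n|) : ℤ) : ℂ) / ((N : ℂ) + 1)

/-- `1/(N+1)` for `0 ≤ n ≤ N`, `-1/(N+1)` for `-N-1 ≤ n < 0`, else `0` -/
def Gc (N : ℕ) (n : ℤ) : ℂ := lam N n - lam N (n + 1)

/-- `f * G_N` -/
def uN (f : L1) (N : ℕ) : C(Circ, ℂ) :=
  poly (Finset.Icc (-(N : ℤ) - 1) N) (fun n => Gc N n * coeff f n)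

/-- the value of `uN` at `0` -/
def cN (f : L1) (N : ℕ) : ℂ := ∑ n ∈ Finset.Icc (-(N : ℤ) - 1) N, Gc N n * coeff f n

/-- sum of the moduli of the coefficients -/
def BN (f : L1) (N : ℕ) : ℝ := ∑ n ∈ Finset.Icc (-(N : ℤ) - 1) N, ‖coeff f n‖

/-- **RL** Riemann-Lebesgue and Cesàro form -/
def S_RL : Prop := ∀ f : L1, (∀ ε : ℝ, 0 < ε → ∃ M : ℕ, ∀ n : ℤ, (M : ℤ) ≤ |n| → ‖coeff f n‖ < ε) ∧
  Tendsto (fun N : ℕ => BN f N / ((N : ℝ) + 1)) atTop (𝓝 0)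

/-- **FEJ** Fejér kernels -/
def S_FEJ : Prop := (∀ (N : ℕ) (n : ℤ), coeff (toL (fejer N)) n = lam N n) ∧
  ∀ f : L1, Tendsto (fun N : ℕ => ‖f - conv f (toL (fejer N))‖) atTop (𝓝 0)

/-- **CLS** idempotents of the Rudin classes -/
def S_CLS : Prop := ∀ A : Submodule ℂ L1, IsClosed (A : Set L1) →
  (∀ f ∈ A, ∀ g ∈ A, conv f g ∈ A) →
  ∀ (n0 : ℤ) (S : Finset ℤ), (∃ f ∈ A, coeff f n0 ≠ 0) →
    (∀ n, n ∈ S ↔ ∀ f ∈ A, coeff f n = coeff f n0) → idem S ∈ A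

/-- **HAR** Hardy type inequality -/
def S_HAR : Prop := ∀ f : L1, Summable (fun N : ℕ => ‖cN f N‖ / ((N : ℝ) + 1))

/-- **MEAS** -/
def S_MEAS : Prop := ∀ δ : ℝ, 0 ≤ δ → mu.real {x | sd x < δ} ≤ δ

/-- **UN** -/
def S_UN : Prop := ∀ f : L1, Tendsto (fun N : ℕ =>
  ∫ x in {x | 1 / ((N : ℝ) + 1) ≤ sd x}, ‖uN f N x‖ / sd x ∂mu) atTop (𝓝 0)

/-- **LC** -/
def S_LC : Prop := ∀ N₁ N₂ : ℕ, N₁ ≤ N₂ →
  ∫ x in {x | 1 / ((N₂ : ℝ) + 1) ≤ sd x ∧ sd x < 1 / ((N₁ : ℝ) + 1)}, 1 / sd x ∂mu ≤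
    1 + ∑ N ∈ Finset.Ico N₁ N₂, 1 / ((N : ℝ) + 1)

/-- **APX** the approximation -/
def S_APX : Prop := ∀ (f : L1) (ε : ℝ) (N₀ : ℕ), 0 < ε → ∃ (N₁ N₂ : ℕ) (η G : ℤ → ℂ),
  N₀ ≤ N₁ ∧ N₁ ≤ N₂ ∧ (∀ n : ℤ, (N₂ : ℤ) + 1 < |n| → η n = 0) ∧
  (∀ m : ℤ, ‖G m‖ ≤ 3 * ((if |m| ≤ (N₁ : ℤ) + 1 then 1 / ((N₁ : ℝ) + 1) else 0) +
    (if |m| ≤ (N₂ : ℤ) + 1 then 1 / ((N₂ : ℝ) + 1) else 0))) ∧
  (∀ n n' : ℤ, n ≤ n' → coeff f n = coeff f n' →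
    η n' - η n = ∑ m ∈ Finset.Ico n n', G m * (coeff f m - coeff f n)) ∧
  ‖f - toL (poly (Finset.Icc (-(N₂ : ℤ) - 1) (N₂ + 1)) η)‖ < ε

/-- `A` is generated by its idempotents: every closed subalgebra which contains the idempotents of
`A` contains `A` -/
def GenIdem (A : Submodule ℂ L1) : Prop :=
  ∀ B : Submodule ℂ L1, IsClosed (B : Set L1) → (∀ f ∈ B, ∀ g ∈ B, conv f g ∈ B) →
    (∀ e ∈ A, conv e e = e → e ∈ B) → A ≤ B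

/-- the synthesis property -/
def SynP (r : Setoid ℤ) : Prop :=
  ∀ A : Submodule ℂ L1, IsClosed (A : Set L1) → (∀ f ∈ A, ∀ g ∈ A, conv f g ∈ A) →
    (∀ m n : ℤ, (∀ f ∈ A, coeff f m = coeff f n) ↔ r m n) → GenIdem A

/-- **FIN** the final step -/
def S_FIN : Prop := S_RL → S_CLS → S_APX → ∀ r : Setoid ℤ, (∃ C : ℝ, ∀ n : ℤ,
    Set.OrdConnected {m | r n m} ∨ ∀ m, r n m → |(m : ℝ) - n| ≤ C * Real.sqrt (1 + |(n : ℝ)|)) →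
  SynP r

end

end Pool.Agent.W810.SYN
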